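import Pool.Agent.Helper50_PN.Stmts
import Pool.Agent.Helper1_PGH.Ht

/-!
# Squad PN, module HGT: the height inequality
-/

set_option autoImplicit false

universe u

open MvPolynomial PGH PGL

namespace Pool.Agent.PN.H94

/-- HGT: the height inequality for a family which does not vanish -/
theorem hgt (evp : EvpStmt.{u}) (evn : EvnStmt.{u}) (cnt : CntStmt.{u}) : HgtStmt.{u} := by
  classical
  intro k E _ _ _ _ _ _ _ D cp sc sb hD hcp hD2 n N q m' B m a x ha hx hsb hB hBN Q hQ hf
  obtain ⟨sn, hsn, hcount⟩ := cnt D cp sc sb hD hcp hD2 n N a x ha hx hsb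
  set f : E := evP (fun l j => algebraMap k E (a l j)) (fun l => hs D (x l)) Q with hfdef
  set ρ : Fin n → Place k E → ℕ := fun l P => (max 0 (-P.ord (x l))).toNat with hρ
  have hρc : ∀ l P, (ρ l P : ℤ) = max 0 (-P.ord (x l)) := fun l P =>
    Int.toNat_of_nonneg (le_max_left _ _)
  have hx0 : ∀ l, x l ≠ 0 := by
    intro l h
    apply hx l
    rw [h, map_zero]
  have hge : ∀ l (P : Place k E), P.Ge (-(ρ l P : ℤ)) (x l) := by
    intro l P
    rw [P.ge_iff (hx0 l), hρc]
    have := le_max_right 0 (-P.ord (x l))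
    linarith
  -- the set of places
  set sf : Finset (Place k E) := (finite_support (L := k) f).toFinset with hsf
  have hsf' : ∀ v ∉ sf, v.ord f = 0 := by
    intro v hv
    by_contra h
    exact hv ((Set.Finite.mem_toFinset _).2 h)
  set s : Finset (Place k E) := sn ∪ sc ∪ sf with hs'
  have hsns : sn ⊆ s := fun v hv => Finset.mem_union_left _ (Finset.mem_union_left _ hv)
  have hscs : sc ⊆ s := fun v hv => Finset.mem_union_left _ (Finset.mem_union_right _ hv)
  have h0 : ∑ v ∈ s, v.ord f = 0 := by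
    apply sum_ord_eq_zero
    intro v hv
    apply hsf'
    intro h
    exact hv (Finset.mem_union_right _ h)
  set d : ℕ := N * m' - B with hd
  -- local inequality
  have hloc : ∀ v ∈ s, (if v ∈ sn then (m' : ℤ) * ((Is a x v).card : ℤ) else 0) -
      ((d : ℤ) + m) * ∑ l, max 0 (-v.ord (x l)) - 2 * m * (cp v : ℤ) ≤ v.ord f := by
    intro v _
    by_cases hv : v ∈ sn
    · rw [if_pos hv]
      obtain ⟨hc0, hreg, hcard⟩ := hsn v hv
      have hI : ∀ l ∈ Is a x v, ∃ j, v.ord (x l - algebraMap k E (a l j)) = 1 := by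
        intro l hl
        unfold Is at hl
        exact (Finset.mem_filter.1 hl).2
      have hne : (Is a x v).Nonempty := Finset.card_pos.1 (by omega)
      obtain ⟨l₀, hl₀⟩ := hne
      obtain ⟨j₀, _⟩ := hI l₀ hl₀
      have hex : ∀ l, ∃ j, l ∈ Is a x v → v.ord (x l - algebraMap k E (a l j)) = 1 := by
        intro l
        by_cases hl : l ∈ Is a x v
        · obtain ⟨j, hj⟩ := hI l hl
          exact ⟨j, fun _ => hj⟩
        · exact ⟨j₀, fun h => absurd h hl⟩
      choose j hj using hex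
      have hDv : DGe v D 0 := by
        have := hD2 v
        rw [hc0, Nat.cast_zero, neg_zero] at this
        exact this
      have h1 := evn v D hDv n N q m' d m a x (fun l j => hD _) hreg (Is a x v) j hcard
        (fun i hi => hj i hi) Q hQ
      have h2 := (v.ge_iff hf).1 h1
      have h3 : (0 : ℤ) ≤ ((d : ℤ) + m) * ∑ l, max 0 (-v.ord (x l)) := by
        apply mul_nonneg (by positivity)
        exact Finset.sum_nonneg fun l _ => le_max_left _ _
      have h4 : (0 : ℤ) ≤ 2 * m * (cp v : ℤ) := by positivity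
      have h5 : ((Is a x v).card : ℤ) * (m' : ℤ) ≤ v.ord f := h2
      linarith
    · rw [if_neg hv]
      have h1 := evp v D (cp v) (hD2 v) n N q m' d m a x (fun l => ρ l v) (fun l => hge l v) Q hQ
      have h2 := (v.ge_iff hf).1 h1
      push_cast at h2
      simp only [hρc] at h2
      linarith
  have hsum := Finset.sum_le_sum hloc
  rw [h0, Finset.sum_sub_distrib, Finset.sum_sub_distrib, ← Finset.mul_sum, ← Finset.mul_sum] at hsum
  have hc1 : ∑ v ∈ s, (if v ∈ sn then (m' : ℤ) * ((Is a x v).card : ℤ) else 0) =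
      (m' : ℤ) * ∑ P ∈ sn, ((Is a x P).card : ℤ) := by
    rw [← Finset.sum_filter, Finset.filter_mem_eq_inter, Finset.inter_eq_right.2 hsns,
      ← Finset.mul_sum]
  have hc3 : ∑ v ∈ s, (cp v : ℤ) = ∑ v ∈ sc, (cp v : ℤ) := by
    symm
    apply Finset.sum_subset hscs
    intro v _ hv
    rw [hcp v hv, Nat.cast_zero]
  have hc2 : ∑ v ∈ s, ∑ l, max 0 (-v.ord (x l)) ≤ ∑ l, (ht k (x l) : ℤ) := by
    rw [Finset.sum_comm]
    exact Finset.sum_le_sum fun l _ => sum_poles_le (x l) s
  rw [hc1, hc3] at hsum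
  set H : ℤ := ∑ l, (ht k (x l) : ℤ) with hH
  set Γ : ℤ := ∑ v ∈ sc, (cp v : ℤ) with hΓ
  set S : ℤ := ∑ P ∈ sn, ((Is a x P).card : ℤ) with hS
  set W : ℤ := ∑ v ∈ s, ∑ l, max 0 (-v.ord (x l)) with hW
  have hH0 : 0 ≤ H := Finset.sum_nonneg fun l _ => Int.natCast_nonneg _
  have hdc : (d : ℤ) = (N : ℤ) * m' - B := by
    rw [hd, Nat.cast_sub hBN, Nat.cast_mul]
  have hm' : (0 : ℤ) ≤ m' := Int.natCast_nonneg m'
  have hdm : (0 : ℤ) ≤ (d : ℤ) + m := by positivity
  have h6 := mul_le_mul_of_nonneg_left hc2 hdm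
  have h7 := mul_le_mul_of_nonneg_left hcount hm'
  have hB' : (m : ℤ) + (6 + n) * m' + 1 ≤ B := by exact_mod_cast hB
  have h8 : 0 ≤ ((B : ℤ) - (m + (6 + n) * m' + 1)) * H :=
    mul_nonneg (by linarith) hH0
  rw [hdc] at h6 hsum
  nlinarith [h6, h7, h8, hsum]

end Pool.Agent.PN.H94
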